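import Pool.Agent.Helper52.SZ.Defs

/-!
Project SZ, module SZ-1: a popular line.
-/

namespace Pool.Agent.Helper52.SZ

open Combinatorics

theorem pop_finite_line {β κ : Type} [Finite β] [Finite κ] : Finite (Line β κ) := by
  have hinj : Function.Injective (fun l : Line β κ => l.idxFun) := by
    intro l m h
    cases l
    cases m
    simp only at h
    subst h
    rfl
  exact Finite.of_injective _ hinj

theorem pop_card_line {β κ : Type} [Finite β] [Finite κ] :
    (Nat.card (Line β κ) : ℝ) ≤ ((Nat.card β : ℝ) + 1) ^ (Nat.card κ) := by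
  have hinj : Function.Injective (fun l : Line β κ => l.idxFun) := by
    intro l m h
    cases l
    cases m
    simp only at h
    subst h
    rfl
  have h1 : Nat.card (Line β κ) ≤ Nat.card (κ → Option β) :=
    Nat.card_le_card_of_injective _ hinj
  have h2 : Nat.card (κ → Option β) = (Nat.card β + 1) ^ (Nat.card κ) := by
    rw [Nat.card_fun, Finite.card_option]
  rw [h2] at h1
  exact_mod_cast h1

theorem pop_union {L Z : Type} [Fintype L] [Finite Z] (P : L → Set Z) :
    dn (⋃ l, P l) ≤ ∑ l, dn (P l) := by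
  classical
  have key : ∀ s : Finset L, dn (⋃ l ∈ s, P l) ≤ ∑ l ∈ s, dn (P l) := by
    intro s
    induction s using Finset.induction_on with
    | empty => simp [dn_empty]
    | insert a s ha ih =>
      rw [Finset.sum_insert ha, Finset.set_biUnion_insert]
      exact (dn_union_le _ _).trans (by linarith)
  have h := key Finset.univ
  simpa using h

theorem popular_line {β κ Z : Type} [Finite β] [Finite κ] [Finite Z] [Nonempty Z] {c : ℝ}
    (hc : 0 < c)
    (h0 : ∀ B : Set (κ → β), c ≤ dn B → ∃ l : Line β κ, ∀ x, l x ∈ B)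
    (R : (κ → β) → Z → Prop) (hR : 2 * c ≤ av (fun z => dn {w | R w z})) :
    ∃ l : Line β κ, c / ((Nat.card β : ℝ) + 1) ^ (Nat.card κ) ≤ dn {z | ∀ x, R (l x) z} := by
  classical
  have : Finite (Line β κ) := pop_finite_line
  have := Fintype.ofFinite (Line β κ)
  have hG : c ≤ dn {z | c ≤ dn {w | R w z}} :=
    dn_ge_of_av_ge hc.le (fun z => dn_le_one _) hR
  have hsub : {z | c ≤ dn {w | R w z}} ⊆ ⋃ l : Line β κ, {z | ∀ x, R (l x) z} := by
    intro z hz
    obtain ⟨l, hl⟩ := h0 {w | R w z} hz
    exact Set.mem_iUnion.mpr ⟨l, hl⟩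
  have h1 : c ≤ ∑ l : Line β κ, dn {z | ∀ x, R (l x) z} :=
    hG.trans ((dn_mono hsub).trans (pop_union _))
  by_contra hcon
  push Not at hcon
  have hne : Nonempty (Line β κ) := by
    by_contra hemp
    rw [not_nonempty_iff] at hemp
    rw [Finset.univ_eq_empty, Finset.sum_empty] at h1
    exact absurd h1 (not_le.mpr hc)
  have hpos : (0 : ℝ) < ((Nat.card β : ℝ) + 1) ^ (Nat.card κ) := by positivity
  have h2 : ∑ l : Line β κ, dn {z | ∀ x, R (l x) z} <
      ∑ _l : Line β κ, c / ((Nat.card β : ℝ) + 1) ^ (Nat.card κ) :=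
    Finset.sum_lt_sum_of_nonempty Finset.univ_nonempty fun l _ => hcon l
  rw [Finset.sum_const, Finset.card_univ, nsmul_eq_mul] at h2
  have h3 := pop_card_line (β := β) (κ := κ)
  rw [Nat.card_eq_fintype_card (α := Line β κ)] at h3
  have h4 : (Fintype.card (Line β κ) : ℝ) * (c / ((Nat.card β : ℝ) + 1) ^ (Nat.card κ)) ≤ c := by
    rw [mul_div_assoc', div_le_iff₀ hpos, mul_comm c]
    exact mul_le_mul_of_nonneg_right h3 hc.le
  linarith

end Pool.Agent.Helper52.SZ
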